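import Pool.Agent.R900.EX.DT
import Pool.Agent.R900.PT.NC2

/-!
# The noncommutative Beilinson conjecture for dg categories generated by powers of abelian varieties
# with a doubly transitive Galois group

Let `q = p ^ a` and let `f` be an irreducible rational polynomial of degree `2 g` all of whose complex
roots have absolute value `√q` (the minimal polynomial of a Weil number, if it has integral
coefficients). Let `slope α` be the valuation of a root `α` of `f` in the algebraic closure of `ℚ_p`, with
`slope q = 1`. We assume (`IsDTPoly`):

* the Galois group of `f` is doubly transitive on the `g` numbers `x + q / x`, `x` a root of `f`, and not
  all slopes are `1 / 2`;
* `g` is odd, or `g - 1` is one or a prime number, or the Galois group is triply transitive on these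
  numbers, or the numbers `N (2 slope - 1)` are, for some `N > 0`, integers whose sums over all half systems
  (one root out of each pair `{α, q / α}`) are odd (`OddDeviations`);
* if `K = ℚ[X] / (f)` contains an imaginary quadratic field `E`, then for each embedding of `E` in the
  algebraic closure of `ℚ_p` the slopes of the roots over this embedding are not all equal and their mean
  is not `1 / 2` (`QuadraticSlopes`).

For example all this holds if `g` is odd, the Galois group is doubly transitive, `A` is not
supersingular and `K` does not contain an imaginary quadratic field. There is no condition on the slopes
apart from these (`A` need not be ordinary or almost ordinary), and no bound for `g`.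

`Homology Ω V` are data of motivic homology `M X n j = H_n^M(X, ℚ(j)) = CH_j(X, n - 2 j) ⊗ ℚ` (higher
Chow groups) and of `ℓ`-adic homology `E X n j = H_n(X, Ω(j))`, `Ω` an algebraic closure of `ℚ_ℓ`, of
schemes `X : V` of finite type over finite fields, with the Frobenius and the regulator. Let `𝒢` (`Generated`) be the smallest class of
schemes that contains all abelian varieties `X`, over a finite field with `q ^ s` elements, that are
isogenous to a power of an abelian variety `A` over the field with `q` elements whose Frobenius has as
characteristic polynomial a power of such an `f` (`IsDT`), that is closed under direct summands of finite
sums of twists of motives, and that contains all of a closed subscheme `Z` of `X`, `X` and `X ∖ Z` if it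
contains two of them. For example, it contains with the Jacobian of a curve `C` all powers of `C`, its
symmetric powers, the quotients of these varieties by finite groups, and the open subschemes that one
obtains from them by removing members of `𝒢`.

Let `𝒟` (`EulerGenerated`) be the smallest class of dg categories that contains the categories
`perf_dg(X)` for all smooth and projective `X` in `𝒢`, and all dg categories whose noncommutative motives
with rational coefficients are direct summands of finite sums of motives of members of `𝒟`. The maps of
Grothendieck groups of such a decomposition have adjoints with respect to the Euler pairings. It
contains, for instance, with such an `X`, the dg categories of the perfect complexes over sheaves of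
Azumaya algebras on `X`, all dg categories with semiorthogonal decompositions into members of `𝒟` (root
stacks, blow-ups, families of quadrics, finite-dimensional algebras of finite global dimension), and all
components of such decompositions of members.

**Theorem.** For all `A` in `𝒟` the kernel of the Euler pairing on `K_0(A)` consists of torsion elements:
every `x` with `χ(x, y) = 0` for all `y` is a torsion element (`NCBeilinson`).

For `A = perf_dg(X)` the Euler pairing on `K_0(X)` is given by the Chern character, the Todd class and the
intersection pairing, by the theorem of Hirzebruch, Riemann and Roch (`IsPerfEuler`); that `X` is smooth
and projective enters through Poincaré duality.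

Properties that are used for the abelian varieties `X`. `IsCyc`: Poincaré duality, the formal properties
of correspondences, Deligne's theorem, the nilpotence of homologically trivial correspondences (Kimura),
the operation of the Frobenius endomorphism on higher Chow groups (Soulé) and the vanishing of the higher
rational `K`-groups of a finite field (Quillen). `IsPowerOver`: the cohomology ring of `X` is the exterior
algebra of `W = H^1(X, Ω)`, on which the Frobenius is `F ^ s`, `F` the semisimple Frobenius over the field
with `q` elements, whose eigenvalues are roots of `f`; the Frobenius is semisimple (Weil), and Tate
classes of degree two are linear combinations of classes of divisors (Tate). That all Tate classes of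
these varieties, of all degrees and over all finite extensions, are polynomials in those of degree two
was proved in the starting file `MP_950c68_ag.DoublyTransitive`. The passage from there to all
degrees of the motivic homology and to the class `𝒢` (`tb_dt`, in `Pool/Agent/R900/EX/DT.lean`) is due to
Soulé, Geisser, Kahn and Jannsen.
-/

set_option autoImplicit false

namespace Pool.Agent.Results.MP_dd457d_ag.DoublyTransitivePowers

open Pool.Agent.W495.FM Pool.Agent.R900.EX Pool.Agent.R900.PT

/-- The noncommutative conjecture of Beilinson for the dg categories generated by the smooth and
projective members of the class generated by the powers of abelian varieties with a doubly transitive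
Galois group. -/
theorem result (Ω : Type) [Field Ω]
    [IsAlgClosed Ω] [CharZero Ω] (V : Type) (T : Homology Ω V) (hT : IsHomology T) (D : Type)
    (K : D → Type) [∀ A, AddCommGroup (K A)] (χ : ∀ A, K A → K A → ℤ) (A : D)
    (hA : EulerGenerated K χ
      (fun A => IsPerfEuler T (Generated T (IsDT T)) (χ A)) A) :
    NCBeilinson (χ A) :=
  nc_beilinson hT (fun _ hX => tb_dt hT hX) hA

end Pool.Agent.Results.MP_dd457d_ag.DoublyTransitivePowers
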