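import Pool.Agent.R937.PZ.Mot
import Pool.Agent.R900.PT.NC2

/-!
# The noncommutative Beilinson conjecture for dg categories generated by abelian varieties of dimension
# at most five, and by products of elliptic curves, abelian surfaces and non-ordinary threefolds

An abelian variety over the field with `p ^ a` elements is modelled by `RedAV` (Honda, Tate): a
finite product of CM types `(E i, Φ i)` with Weil numbers `π i ∈ E i` that satisfy the formula of
Shimura and Taniyama; its cohomology of degree `n`, with coefficients in an algebraically closed field
`Ω`, consists of the alternating `n`-forms on the Tate module `Ω ⊗ H_1`, on which the Frobenius
endomorphism acts by `π`.

We consider (`IsGoodAVP`) the abelian varieties `Y` of the following kinds: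

* all abelian varieties of dimension at most five;
* the abelian varieties that are isogenous, over an algebraic closure, to a product of a supersingular
  abelian variety of any dimension and of abelian varieties of dimension at most three (any number, any
  multiplicity), such that any two factors of dimension three whose CM fields have the same Galois
  closure satisfy one of the following: their fields are Galois over `ℚ`; one of them is supersingular;
  they are isogenous; **neither of them is ordinary and their `p`-ranks are not `{1, 2}`**.

So `Y` may be any product of elliptic curves, of abelian surfaces and of abelian threefolds that all
have `p`-rank two, or that all have `p`-rank zero or one; nonisogenous threefolds with the same CM field,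
or with different CM fields with the same Galois closure, are allowed. The theorem in the starting files
(`tb_goodS`, for `IsGoodAVS`) excludes two nonisogenous threefolds that are not supersingular and whose
CM fields have the same Galois closure, unless these fields are Galois over `ℚ`.

`Homology Ω V` are data of motivic homology `M X n j = H_n^M(X, ℚ(j)) = CH_j(X, n - 2 j) ⊗ ℚ` (higher
Chow groups) and of `ℓ`-adic homology `E X n j = H_n(X, ℚ_ℓ(j))` of schemes `X : V` of finite type over
finite fields, with the Frobenius and the regulator. Let `𝒢` (`Generated`) be the smallest class of
schemes that contains those with the homology groups of the abelian varieties above, that is closed
under direct summands of finite sums of twists of motives, and that contains all of a closed subscheme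
`Z` of `X`, `X` and `X ∖ Z` if it contains two of them. For example, it contains all products of curves
of genus at most two, symmetric powers of such products, the varieties dominated by an abelian variety
of dimension at most five whose motive is a direct summand, and the open and the singular varieties
that are stratified by such varieties.

Let `𝒟` (`EulerGenerated`) be the smallest class of dg categories that contains the categories
`perf_dg(X)` for all smooth and projective `X` in `𝒢`, and all dg categories whose noncommutative motives
with rational coefficients are direct summands of finite sums of motives of members of `𝒟`. The maps of Grothendieck groups of
such a decomposition have adjoints with respect to the Euler pairings. It contains, for instance, with such an `X`, the dg categories of the perfect complexes over sheaves of Azumaya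
algebras on `X`, all dg categories with semiorthogonal decompositions into members of `𝒟` (root stacks,
blow-ups, families of quadrics, finite-dimensional algebras of finite global dimension), and all
components of such decompositions of members.

**Theorem.** For all `A` in `𝒟` the kernel of the Euler pairing on `K_0(A)` consists of torsion elements:
every `x` with `χ(x, y) = 0` for all `y` is a torsion element (`NCBeilinson`).

For `A = perf_dg(X)` the Euler pairing on `K_0(X)` is given by the Chern character, the Todd class and the
intersection pairing, by the theorem of Hirzebruch, Riemann and Roch (`IsPerfEuler`); that `X` is smooth
and projective enters through Poincaré duality.

Properties of the theory of cycles that are used for the abelian varieties `Y` (`IsChowS`,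
`IsMotivic`): Poincaré duality, the formal properties of correspondences, the nilpotence of
homologically trivial correspondences (Kimura), the operation of the Frobenius endomorphism on higher
Chow groups, the vanishing of the higher rational `K`-groups of a finite field (Quillen), and the
algebraicity of the classes in `AlgS` (theorems of Tate, Markman and Ramón Marí). All Tate classes on all powers
of `Y` are in `AlgS`: this is `Pool.Agent.R937.PG.main` (in `Pool/Agent/R937/PZ`), which is not in the
starting files. The passage from the Tate conjecture to all degrees and to the class `𝒢` is due to Soulé, Geisser, Kahn and Jannsen.
-/

set_option autoImplicit false

namespace Pool.Agent.Results.MP_dd457d_ag.NonOrdinaryThreefolds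

open Pool.Agent.W495.TA Pool.Agent.W495.FM Pool.Agent.R937.PG Pool.Agent.R900.PT

/-- The noncommutative conjecture of Beilinson for the dg categories generated by the smooth and
projective members of the class generated by the abelian varieties of dimension at most five and by the
products of elliptic curves, abelian surfaces and non-ordinary threefolds. -/
theorem result (p : ℕ) [Fact p.Prime] (ν : PadicAlgCl p ≃+* ℂ) (Ω : Type) [Field Ω]
    [IsAlgClosed Ω] [CharZero Ω] (V : Type) (T : Homology Ω V) (hT : IsHomology T) (D : Type)
    (K : D → Type) [∀ A, AddCommGroup (K A)] (χ : ∀ A, K A → K A → ℤ) (A : D)
    (hA : EulerGenerated K χ
      (fun A => IsPerfEuler T (Generated T (IsGoodAbelianP p ν T)) (χ A)) A) :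
    NCBeilinson (χ A) :=
  nc_beilinson hT (fun _ hX => tb_goodP hT hX) hA

end Pool.Agent.Results.MP_dd457d_ag.NonOrdinaryThreefolds
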